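import Pool.Agent.H916Y.Fams3

/-!
# The Tate conjecture for Fermat varieties of certain degrees, in every characteristic

The degrees are: those with all prime divisors in `{2, 3, 5}`; in `{2, 3, 7}`; in `{2, q}`, where
`q` is a prime congruent to seven modulo eight; those not divisible by four with all prime divisors
in `{2, 3, 11}` or in `{2, 3, 13}`. For such a degree `m` and every prime `p` not dividing `m`,
every Tate character of degree `m` becomes, after raising the degree to a suitable multiple prime
to `p`, a member of the closure of the characters of surfaces and of the standard characters of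
Aoki.
-/

namespace Pool.Agent.Results.MP_021685_ag.FermatEveryCharacteristic

open Pool.Agent.H916T

/-- All prime divisors of `m` are `2`, `a` or `b`. -/
def PrimesIn (m a b : ℕ) : Prop := ∀ r : ℕ, r.Prime → r ∣ m → r = 2 ∨ r = a ∨ r = b

/-- The degrees: the prime divisors of `m` lie in `{2, 3, 5}`, or in `{2, 3, 7}`, or in `{2, q}` for
a prime `q` congruent to `7` modulo `8`, or `4` does not divide `m` and they lie in `{2, 3, 11}` or
in `{2, 3, 13}`. -/
def GoodDegree (m : ℕ) : Prop :=
  PrimesIn m 3 5 ∨ PrimesIn m 3 7 ∨ (∃ q : ℕ, q.Prime ∧ q % 8 = 7 ∧ PrimesIn m q q) ∨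
    (¬ 4 ∣ m ∧ (PrimesIn m 3 11 ∨ PrimesIn m 3 13))

theorem result (p m : ℕ) (hp : p.Prime) (hm : 0 < m) (hpm : p.Coprime m) (hdeg : GoodDegree m)
    (s : Multiset (ZMod m)) (hs : IsTate p m s) (hne : s ≠ 0) :
    ∃ N : ℕ, 0 < N ∧ p.Coprime N ∧
      Generated (N * m)
        (fun t => SurfaceTate p (N * m) t ∨ ∃ q : ℕ, q.Prime ∧ q ∣ N * m ∧ Standard q (N * m) t)
        (s.map fun a => ((N * a.val : ℕ) : ZMod (N * m))) := by
  have h : H916Y.Concl p m s := by
    rcases hdeg with h | h | ⟨q, hq, hq7, h⟩ | ⟨h4, h | h⟩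
    · exact H916Y.all235 hp hm hpm h hs hne
    · exact H916Y.all237 hp hm hpm h hs hne
    · exact H916Y.allq7 hp hm hpm hq hq7 (fun r hr hrm => (h r hr hrm).imp id (fun h' => h'.elim id id))
        hs hne
    · exact H916Y.all2311 hp hm h4 hpm h hs hne
    · exact H916Y.all2313 hp hm h4 hpm h hs hne
  obtain ⟨N, hN, hpN, H⟩ := h
  exact ⟨N, hN, hpN, H (N * m) rfl⟩

end Pool.Agent.Results.MP_021685_ag.FermatEveryCharacteristic
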