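import Pool.Agent.H916T.Main

/-!
# The Tate conjecture for Fermat varieties of degree `ℓ ^ k` or `2 * ℓ ^ k` over finite fields

Every Tate character of degree `m = ℓ ^ k` or `m = 2 * ℓ ^ k` (in every dimension and in every
characteristic `p` prime to `m`) becomes, after raising the degree to a suitable multiple `N * m`
prime to `p`, a member of the closure of the characters of Fermat surfaces (and, if `ℓ ^ 2 ∣ m`, the
standard characters of Aoki for the prime `ℓ`) under unions and removal of pairs `{a, -a}`.
-/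

namespace Pool.Agent.Results.MP_021685_ag.FermatPrimePower

open Pool.Agent.H916T

theorem result (p m ℓ k : ℕ) (hp : p.Prime) (hℓ : ℓ.Prime) (hm : m = ℓ ^ k ∨ m = 2 * ℓ ^ k)
    (hpm : p.Coprime m) :
    ∃ N : ℕ, 0 < N ∧ p.Coprime N ∧ ∀ s : Multiset (ZMod m), IsTate p m s → s ≠ 0 →
      Generated (N * m)
        (fun t => SurfaceTate p (N * m) t ∨ (ℓ ^ 2 ∣ m ∧ Standard ℓ (N * m) t))
        (s.map fun a => ((N * a.val : ℕ) : ZMod (N * m))) :=
  main p m ℓ k hp hℓ hm hpm

end Pool.Agent.Results.MP_021685_ag.FermatPrimePower
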