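import Mathlib
import Pool.Agent.H925R2.K3
import Pool.Agent.H925R2.DT

/-!
# Tate classes on all powers of K3 surfaces of finite height with generic Frobenius

Let `X` be a K3 surface over a finite field of characteristic `p`, `T` the transcendental part of
`H²(X̄, ℚ_ℓ(1))` (the orthogonal complement of the Picard group) and `F` the Frobenius.  If `X` has
finite height, the characteristic polynomial of `F` on `T` is a power of an irreducible polynomial
`f ∈ ℚ[X]` of degree `2 m`, whose complex roots have absolute value `1`, but whose roots are not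
all `p`-adic units.  Tate classes on the powers `Xⁿ` are, apart from classes coming from the
Picard group, the `F ^ s`-invariants in the tensor powers of `T`, that is (by duality) the
`F ^ s`-invariant multilinear forms on `T`.

We show: if the Galois group of `f` acts doubly transitively on the `m` numbers `x + 1 / x` and
`ℚ[X] / (f)` contains no imaginary quadratic field, and `m` is odd, or `m = 2`, or `m - 1` is
prime (for K3 surfaces this leaves out only `m = 10`), every `F ^ s`-invariant multilinear form is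
a linear combination of products of `F`-invariant bilinear forms.  There is no condition on the
height, and none on the Newton polygon besides not being constant.
-/

namespace Pool.Agent.Results.MP_021685_ag.SurfacePowersGeneric

open Polynomial

/-- The Galois group of `f` (acting on its splitting field) is doubly transitive on the set of
numbers `x + 1 / x`, `x` a root of `f`. -/
def DoublyTransitiveOnTraces (f : ℚ[X]) : Prop :=
  ∀ x y x' y' : f.SplittingField, aeval x f = 0 → aeval y f = 0 → aeval x' f = 0 →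
    aeval y' f = 0 → x + 1 / x ≠ y + 1 / y → x' + 1 / x' ≠ y' + 1 / y' →
    ∃ σ : f.Gal, σ (x + 1 / x) = x' + 1 / x' ∧ σ (y + 1 / y) = y' + 1 / y'

/-- The form `ψ` in `n` variables is a product of `F`-invariant bilinear forms: there is a perfect
matching `τ` of the `n` variables such that `ψ` is the product, over the matched pairs
`{i, τ i}` with `i < τ i`, of `B i (v i) (v (τ i))`, with `F`-invariant bilinear forms `B i`. -/
def IsProductOfInvariantForms {Ω : Type*} [Field Ω] {V : Type*} [AddCommGroup V] [Module Ω V]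
    (F : V →ₗ[Ω] V) {n : ℕ} (ψ : MultilinearMap Ω (fun _ : Fin n => V) Ω) : Prop :=
  ∃ (τ : Equiv.Perm (Fin n)) (B : Fin n → V →ₗ[Ω] V →ₗ[Ω] Ω),
    (∀ i, τ (τ i) = i) ∧ (∀ i, τ i ≠ i) ∧ (∀ i x y, B i (F x) (F y) = B i x y) ∧
    ∀ v, ψ v = ∏ i with i < τ i, B i (v i) (v (τ i))

theorem result (p : ℕ) [Fact p.Prime]
    (f : ℚ[X]) (hf : Irreducible f) (m : ℕ) (hdeg : f.natDegree = 2 * m)
    (hm : Odd m ∨ m = 2 ∨ (m - 1).Prime)
    (hunit : ∀ z : ℂ, aeval z f = 0 → ‖z‖ = 1)
    (hdt : DoublyTransitiveOnTraces f)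
    (hK : ∀ (z : AdjoinRoot f) (n : ℕ), 0 < n → z ^ 2 ≠ -(n : AdjoinRoot f))
    (hns : ∃ α : PadicAlgCl p, aeval α f = 0 ∧ ‖α‖ ≠ 1)
    (Ω : Type*) [Field Ω] [IsAlgClosed Ω] [CharZero Ω]
    (V : Type*) [AddCommGroup V] [Module Ω V] [FiniteDimensional Ω V] (F : V →ₗ[Ω] V)
    (hF : Submodule.span Ω {v : V | ∃ μ : Ω, aeval μ f = 0 ∧ F v = μ • v} = ⊤)
    (n s : ℕ) (hs : 0 < s) (φ : MultilinearMap Ω (fun _ : Fin n => V) Ω)
    (hφ : ∀ v : Fin n → V, φ (fun i => (F ^ s) (v i)) = φ v) :
    φ ∈ Submodule.span Ω {ψ | IsProductOfInvariantForms F ψ} := by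
  have hns' : ∃ α : PadicAlgCl p, aeval α f = 0 ∧ Pool.Agent.H925R2.dev p (1 : ℚ) α ≠ 0 := by
    obtain ⟨α, hα, h⟩ := hns
    refine ⟨α, hα, fun h0 => h ?_⟩
    have hα0 : α ≠ 0 := Pool.Agent.H925R2.padic_root_ne_zero hf one_pos
      (Pool.Agent.H925R2.weil_one hunit) p α hα
    rw [Pool.Agent.H925R2.dev_one] at h0
    have h1 : Real.log ‖α‖ = Real.log 1 := by
      rw [Real.log_one]
      linarith
    exact Real.log_injOn_pos (norm_pos_iff.2 hα0) (Set.mem_Ioi.2 one_pos) h1
  let e : f.SplittingField →ₐ[ℚ] PadicAlgCl p := IsAlgClosed.lift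
  have hdt' : Pool.Agent.H925R2.DoublyTransitive f 1 := by
    intro x y x' y'
    rw [Rat.cast_one]
    exact hdt x y x' y'
  exact Pool.Agent.H925R2.multi_of_norel p hf hunit hns' e
    (fun c hc hrel => Pool.Agent.H925R2.norel_A hf one_pos (Pool.Agent.H925R2.weil_one hunit) p e m
      hdeg hm hdt' hK hns' c hc hrel) F hF n s hs φ hφ

end Pool.Agent.Results.MP_021685_ag.SurfacePowersGeneric
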