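import Mathlib
import Pool.Agent.H925R2.K3
import Pool.Agent.H925R2.Core

/-!
# Tate classes on all powers of K3 surfaces whose Frobenius field has degree `2 r ^ k`

Let `X` be a K3 surface of finite height over a finite field of characteristic `p`, `T` the
transcendental part of `H²(X̄, ℚ_ℓ(1))` and `F` the Frobenius.  The characteristic polynomial of
`F` on `T` is a power of an irreducible polynomial `f ∈ ℚ[X]`, whose complex roots have absolute
value `1`.  Tate classes on the powers `Xⁿ` are, apart from classes coming from the Picard group,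
the `F ^ s`-invariants in the tensor powers of `T`, that is (by duality) the `F ^ s`-invariant
multilinear forms on `T`.

Let `f` have degree `2 r ^ k`, `r` prime.  For a root `α` of `f` in the algebraic closure of `ℚ_p`
let `log ‖α‖ = κ u(α)` with integers `u(α)` and a constant `κ ≠ 0`.  We show: if no choice of one root out of every pair
`{α, α⁻¹}` has `u`-sum divisible by `r`, then every `F ^ s`-invariant multilinear form is a linear
combination of products of `F`-invariant bilinear forms.

For a K3 surface one can take `u = ±1` on the `2 h` roots which are not units (`h` divides the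
height), `u = 0` on the others; the condition is that `h` is odd, and smaller than `r` in case `r`
is odd.
-/

namespace Pool.Agent.Results.MP_021685_ag.SurfacePowersSylow

open Polynomial

/-- The form `ψ` in `n` variables is a product of `F`-invariant bilinear forms: there is a perfect
matching `τ` of the `n` variables such that `ψ` is the product, over the matched pairs
`{i, τ i}` with `i < τ i`, of `B i (v i) (v (τ i))`, with `F`-invariant bilinear forms `B i`. -/
def IsProductOfInvariantForms {Ω : Type*} [Field Ω] {V : Type*} [AddCommGroup V] [Module Ω V]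
    (F : V →ₗ[Ω] V) {n : ℕ} (ψ : MultilinearMap Ω (fun _ : Fin n => V) Ω) : Prop :=
  ∃ (τ : Equiv.Perm (Fin n)) (B : Fin n → V →ₗ[Ω] V →ₗ[Ω] Ω),
    (∀ i, τ (τ i) = i) ∧ (∀ i, τ i ≠ i) ∧ (∀ i x y, B i (F x) (F y) = B i x y) ∧
    ∀ v, ψ v = ∏ i with i < τ i, B i (v i) (v (τ i))

theorem result (p : ℕ) [Fact p.Prime] (r k : ℕ) [Fact r.Prime] (hk : 0 < k)
    (f : ℚ[X]) (hf : Irreducible f) (hdeg : f.natDegree = 2 * r ^ k)
    (hunit : ∀ z : ℂ, aeval z f = 0 → ‖z‖ = 1)
    (κ : ℝ) (hκ : κ ≠ 0) (u : PadicAlgCl p → ℤ)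
    (hu : ∀ α : PadicAlgCl p, aeval α f = 0 → Real.log ‖α‖ = κ * u α)
    (hsum : ∀ Φ : Finset (PadicAlgCl p), (∀ α ∈ Φ, aeval α f = 0) →
      (∀ α : PadicAlgCl p, aeval α f = 0 → (α ∈ Φ ↔ α⁻¹ ∉ Φ)) → ¬ (r : ℤ) ∣ ∑ α ∈ Φ, u α)
    (Ω : Type*) [Field Ω] [IsAlgClosed Ω] [CharZero Ω]
    (V : Type*) [AddCommGroup V] [Module Ω V] [FiniteDimensional Ω V] (F : V →ₗ[Ω] V)
    (hF : Submodule.span Ω {v : V | ∃ μ : Ω, aeval μ f = 0 ∧ F v = μ • v} = ⊤)
    (n s : ℕ) (hs : 0 < s) (φ : MultilinearMap Ω (fun _ : Fin n => V) Ω)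
    (hφ : ∀ v : Fin n → V, φ (fun i => (F ^ s) (v i)) = φ v) :
    φ ∈ Submodule.span Ω {ψ | IsProductOfInvariantForms F ψ} := by
  classical
  have h1p : ((1 : ℚ) : PadicAlgCl p) = 1 := Rat.cast_one
  have hdeg2 : 2 < f.natDegree := by
    rw [hdeg]
    have h1 : r ^ 1 ≤ r ^ k := Nat.pow_le_pow_right (Fact.out : r.Prime).pos hk
    have h2 := (Fact.out : r.Prime).two_le
    rw [pow_one] at h1
    omega
  have hdevu : ∀ α : PadicAlgCl p, aeval α f = 0 →
      Pool.Agent.H925R2.dev p (1 : ℚ) α = (2 * κ) * u α := by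
    intro α hα
    rw [Pool.Agent.H925R2.dev_one, hu α hα]
    ring
  let e : f.SplittingField →ₐ[ℚ] PadicAlgCl p := IsAlgClosed.lift
  have _ : MulAction.IsPretransitive f.Gal (f.rootSet f.SplittingField) :=
    Pool.Agent.H925R2.gal_pretransitive hf
  have hroot : ∀ x : f.rootSet f.SplittingField, aeval (e x.1) f = 0 := by
    intro x
    rw [aeval_algHom_apply, (mem_rootSet.1 x.2).2, map_zero]
  have hinj : Function.Injective (fun x : f.rootSet f.SplittingField => e x.1) :=
    fun a b h => Subtype.ext (e.injective h)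
  have hPhi : ∀ Φ : Finset (f.rootSet f.SplittingField),
      Pool.Agent.H925R2.IsHalf
        (Pool.Agent.H925R2.rinv hf one_pos (Pool.Agent.H925R2.weil_one hunit)) Φ →
      ¬ (r : ℤ) ∣ ∑ x ∈ Φ, u (e x.1) := by
    intro Φ hΦ'
    have h1 := hsum (Φ.image (fun x => e x.1)) (by
      intro α hα
      obtain ⟨x, _, rfl⟩ := Finset.mem_image.1 hα
      exact hroot x) (by
      intro α hα
      obtain ⟨x, rfl⟩ := Pool.Agent.H925R2.exists_root_eq hf e α hα
      have h2 : (e x.1)⁻¹ = e (Pool.Agent.H925R2.rinv hf one_pos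
          (Pool.Agent.H925R2.weil_one hunit) x).1 := by
        rw [Pool.Agent.H925R2.rinv_coe, map_div₀, map_ratCast, h1p, one_div]
      rw [h2]
      have h3 : ∀ z : f.rootSet f.SplittingField, e z.1 ∈ Φ.image (fun x => e x.1) ↔ z ∈ Φ := by
        intro z
        rw [Finset.mem_image]
        constructor
        · rintro ⟨w, hw, hwz⟩
          rwa [← hinj hwz]
        · intro hz
          exact ⟨z, hz, rfl⟩
      rw [h3, h3]
      exact hΦ' x)
    rw [Finset.sum_image (fun a _ b _ h => hinj h)] at h1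
    exact h1
  have hns : ∃ α : PadicAlgCl p, aeval α f = 0 ∧ Pool.Agent.H925R2.dev p (1 : ℚ) α ≠ 0 := by
    by_contra hall
    push Not at hall
    obtain ⟨Φ, hΦ⟩ := Pool.Agent.H925R2.exists_isHalf
      (Pool.Agent.H925R2.rinv_rinv hf one_pos (Pool.Agent.H925R2.weil_one hunit))
      (Pool.Agent.H925R2.rinv_ne hf one_pos (Pool.Agent.H925R2.weil_one hunit) hdeg2)
    apply hPhi Φ hΦ
    have h1 : ∀ x ∈ Φ, u (e x.1) = 0 := by
      intro x _
      have h2 := hall _ (hroot x)
      rw [hdevu _ (hroot x)] at h2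
      have h3 := (mul_eq_zero.1 h2).resolve_left (mul_ne_zero two_ne_zero hκ)
      exact_mod_cast h3
    rw [Finset.sum_eq_zero h1]
    exact dvd_zero _
  refine Pool.Agent.H925R2.multi_of_norel p hf hunit hns e ?_ F hF n s hs φ hφ
  intro c hc hrel
  refine Pool.Agent.H925R2.core (R := f.rootSet f.SplittingField) (G := f.Gal)
    (inv := Pool.Agent.H925R2.rinv hf one_pos (Pool.Agent.H925R2.weil_one hunit))
    (Pool.Agent.H925R2.rinv_rinv hf one_pos (Pool.Agent.H925R2.weil_one hunit))
    (Pool.Agent.H925R2.rinv_ne hf one_pos (Pool.Agent.H925R2.weil_one hunit) hdeg2)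
    (Pool.Agent.H925R2.smul_rinv hf one_pos (Pool.Agent.H925R2.weil_one hunit)) r k
    (by rw [Pool.Agent.H925R2.card_roots hf, hdeg]) (fun x => u (e x.1)) c ?_ hc hPhi ?_
  · intro x
    have h1 := Pool.Agent.H925R2.dev_rinv hf one_pos (Pool.Agent.H925R2.weil_one hunit) p e x
    rw [hdevu _ (hroot _), hdevu _ (hroot _), ← mul_neg] at h1
    have h2 := mul_left_cancel₀ (mul_ne_zero two_ne_zero hκ) h1
    exact_mod_cast h2
  · intro g
    have h1 := hrel g
    have h2 : ∀ x : f.rootSet f.SplittingField, (c x : ℝ) *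
        Pool.Agent.H925R2.dev p 1 (e (g • x : f.rootSet f.SplittingField).1) =
        (2 * κ) * ((c x * u (e (g • x : f.rootSet f.SplittingField).1) : ℤ) : ℝ) := by
      intro x
      rw [hdevu _ (hroot _)]
      push_cast
      ring
    rw [Finset.sum_congr rfl (fun x _ => h2 x), ← Finset.mul_sum] at h1
    have h3 := (mul_eq_zero.1 h1).resolve_left (mul_ne_zero two_ne_zero hκ)
    exact_mod_cast h3

end Pool.Agent.Results.MP_021685_ag.SurfacePowersSylow
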